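import Mathlib
import Pool.Agent.Helper669.OMain

/-!
# Consistency of `cov(M) < od`

There is a ccc forcing notion all of whose conditions force `cov(M) < od`. It is the finite
support iteration, along the ordinal `λ κ`, `κ = 𝔠⁺`, `λ = 𝔠⁺⁺`, of blocks of `λ` Cohen reals,
each followed by eventually different forcing.
-/

namespace Pool.Agent.Results.MP_6aeb5f_lc.CovLtOd

open Pool.Agent.Helper669.OFormula

theorem result : ∃ (P : Type) (_ : Preorder P), Nonempty P ∧ CCC P ∧ ∀ p : P, p ∈ CovLtOd P :=
  Pool.Agent.Helper669.OMain.exists_forcing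

end Pool.Agent.Results.MP_6aeb5f_lc.CovLtOd
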